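import Mathlib

namespace Pool.Agent.Results.MP_d5c33c_co.SpectrumBound

open Finset

/-- A coherent configuration on the finite set `X` with set of colours `S`: `col x y` is the
colour of the pair `(x,y)`; every colour is nonempty; the diagonal is a union of colours; the
colours are closed under transposition (`tr`); and `p a b c` is the intersection number
`p^c_{ab}`. -/
structure CC (X S : Type*) [Fintype X] [DecidableEq X] [Fintype S] [DecidableEq S] where
  /-- colour of a pair -/
  col : X → X → S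
  /-- colours are nonempty -/
  surj : ∀ a, ∃ x y, col x y = a
  /-- the diagonal is a union of colours -/
  diag : ∀ x y z, col x x = col y z → y = z
  /-- transposed colour -/
  tr : S → S
  /-- transposed colour -/
  col_tr : ∀ x y, col y x = tr (col x y)
  /-- intersection numbers `p a b c = p^c_{ab}` -/
  p : S → S → S → ℕ
  /-- intersection numbers -/
  p_spec : ∀ a b x y, (univ.filter (fun z => col x z = a ∧ col z y = b)).card = p a b (col x y)

variable {X S : Type*} [Fintype X] [DecidableEq X] [Fintype S] [DecidableEq S]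

namespace CC

/-- The valency `k_a`: the (common) nonzero number of `y` with `(x,y) ∈ a`, written as a maximum
over `x`; see `valency_eq`. -/
def valency (C : CC X S) (a : S) : ℕ :=
  univ.sup (fun x => (univ.filter (fun y => C.col x y = a)).card)

/-- the numbers `∇̃^c_{ab} = √(k_c/(k_a k_b)) p^c_{ab}` -/
noncomputable def nabla (C : CC X S) (c a b : S) : ℝ :=
  Real.sqrt ((C.valency c : ℝ) / ((C.valency a : ℝ) * (C.valency b : ℝ))) * (C.p a b c : ℝ)

/-- the matrix `O_{a,b} = ∑_{p,q} ∇̃^a_{pq} ∇̃^b_{pq}` -/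
noncomputable def O (C : CC X S) : Matrix S S ℝ :=
  fun a b => ∑ p, ∑ q, C.nabla a p q * C.nabla b p q

variable (C : CC X S)

theorem col_src {x y x' y' : X} (h : C.col x y = C.col x' y') : C.col x x = C.col x' x' := by
  have h1 : 0 < C.p (C.col x x) (C.col x y) (C.col x y) := by
    rw [← C.p_spec, card_pos]
    exact ⟨x, by simp⟩
  have h2 : 0 < C.p (C.col x x) (C.col x y) (C.col x' y') := by rw [← h]; exact h1
  rw [← C.p_spec, card_pos] at h2
  obtain ⟨z, hz⟩ := h2
  rw [mem_filter] at hz
  have h3 := C.diag x x' z hz.2.1.symm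
  rw [← h3] at hz
  exact hz.2.1.symm

theorem tr_tr (a : S) : C.tr (C.tr a) = a := by
  obtain ⟨x, y, rfl⟩ := C.surj a
  rw [← C.col_tr, ← C.col_tr]

theorem col_eq_iff (x y : X) (a : S) : C.col x y = a ↔ C.col y x = C.tr a := by
  constructor
  · rintro rfl
    exact C.col_tr x y
  · intro h
    rw [C.col_tr y x, h, C.tr_tr]

theorem row_count {x x' : X} (h : C.col x x = C.col x' x') (a : S) :
    (univ.filter (fun y => C.col x y = a)).card = (univ.filter (fun y => C.col x' y = a)).card := by
  have key : ∀ x : X, (univ.filter (fun y => C.col x y = a)).card = C.p a (C.tr a) (C.col x x) := by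
    intro x
    rw [← C.p_spec]
    congr 1
    ext y
    simp only [mem_filter, mem_univ, true_and]
    constructor
    · intro h
      exact ⟨h, (C.col_eq_iff x y a).1 h⟩
    · exact fun h => h.1
  rw [key, key, h]

theorem valency_eq (x y : X) :
    (univ.filter (fun z => C.col x z = C.col x y)).card = C.valency (C.col x y) := by
  unfold valency
  apply le_antisymm
  · exact Finset.le_sup (f := fun x' => (univ.filter (fun z => C.col x' z = C.col x y)).card)
      (mem_univ x)
  · apply Finset.sup_le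
    intro x' _
    rcases (univ.filter (fun z => C.col x' z = C.col x y)).eq_empty_or_nonempty with h | ⟨z, hz⟩
    · rw [h]; simp
    · rw [mem_filter] at hz
      exact (C.row_count (C.col_src hz.2) _).le

theorem valency_pos (a : S) : 0 < C.valency a := by
  obtain ⟨x, y, rfl⟩ := C.surj a
  rw [← C.valency_eq, card_pos]
  exact ⟨y, by simp⟩

/-- number of pairs of a colour -/
def num (a : S) : ℕ := ∑ x, (univ.filter (fun y => C.col x y = a)).card

/-- size of a fibre -/
def m (d : S) : ℕ := (univ.filter (fun x => C.col x x = d)).card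

theorem num_eq (x y : X) : C.num (C.col x y) = C.m (C.col x x) * C.valency (C.col x y) := by
  unfold num m
  rw [card_filter, sum_mul]
  apply sum_congr rfl
  intro x' _
  by_cases h : C.col x' x' = C.col x x
  · rw [if_pos h, one_mul, C.row_count h, C.valency_eq]
  · rw [if_neg h, zero_mul, card_eq_zero, filter_eq_empty_iff]
    intro z _ hz
    exact h (C.col_src hz)

theorem m_pos (x : X) : 0 < C.m (C.col x x) := by
  unfold m
  rw [card_pos]
  exact ⟨x, by simp⟩

theorem num_pos (a : S) : 0 < C.num a := by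
  obtain ⟨x, y, rfl⟩ := C.surj a
  rw [C.num_eq]
  exact Nat.mul_pos (C.m_pos x) (C.valency_pos _)

theorem num_tr (a : S) : C.num (C.tr a) = C.num a := by
  unfold num
  simp only [card_filter]
  rw [sum_comm]
  apply sum_congr rfl
  intro x _
  apply sum_congr rfl
  intro y _
  have := C.col_eq_iff x y a
  by_cases h : C.col x y = a
  · rw [if_pos h, if_pos (this.1 h)]
  · rw [if_neg h, if_neg (fun h' => h (this.2 h'))]

theorem sum_col (g : S → ℝ) : ∑ x, ∑ y, g (C.col x y) = ∑ a, (C.num a : ℝ) * g a := by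
  have h1 : ∀ x y, g (C.col x y) = ∑ a, if C.col x y = a then g a else 0 := by
    intro x y
    rw [Finset.sum_ite_eq]
    simp
  simp_rw [h1]
  have h2 : ∀ x, ∑ y, ∑ a, (if C.col x y = a then g a else 0) =
      ∑ a, ((univ.filter (fun y => C.col x y = a)).card : ℝ) * g a := by
    intro x
    rw [sum_comm]
    apply sum_congr rfl
    intro a _
    rw [← sum_filter, sum_const, nsmul_eq_mul]
  simp_rw [h2]
  rw [sum_comm]
  apply sum_congr rfl
  intro a _
  rw [← sum_mul]
  unfold num
  push_cast
  rfl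

/-- `X'(x,y) = v_{c(x,y)}/√|c(x,y)|` -/
noncomputable def XX (v : S → ℝ) (x y : X) : ℝ := v (C.col x y) / Real.sqrt (C.num (C.col x y))

/-- `Y_p(z,y) = ∑_{(x,z) ∈ p} X'(x,y)` -/
noncomputable def Y (v : S → ℝ) (p : S) (z y : X) : ℝ :=
  ∑ x, if C.col x z = p then C.XX v x y else 0

/-- the value of `Y_p` on a colour -/
noncomputable def yy (v : S → ℝ) (p q : S) : ℝ :=
  ∑ a, (C.p (C.tr p) a q : ℝ) * (v a / Real.sqrt (C.num a))

theorem Y_eq (v : S → ℝ) (p : S) (z y : X) : C.Y v p z y = C.yy v p (C.col z y) := by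
  unfold Y yy XX
  have h1 : ∀ x, (if C.col x z = p then v (C.col x y) / Real.sqrt (C.num (C.col x y)) else 0) =
      ∑ a, if C.col z x = C.tr p ∧ C.col x y = a then v a / Real.sqrt (C.num a) else 0 := by
    intro x
    have hiff := C.col_eq_iff x z p
    by_cases h : C.col x z = p
    · rw [if_pos h]
      have h' := hiff.1 h
      simp only [h', true_and]
      rw [Finset.sum_ite_eq]
      simp
    · rw [if_neg h]
      have h' : ¬ C.col z x = C.tr p := fun hh => h (hiff.2 hh)
      simp only [h', false_and, if_false, sum_const_zero]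
  simp_rw [h1]
  rw [sum_comm]
  apply sum_congr rfl
  intro a _
  rw [← sum_filter, sum_const, nsmul_eq_mul, C.p_spec]

theorem sum_Y (v : S → ℝ) (p q : S) :
    ∑ x, ∑ y, C.XX v x y * (C.p p q (C.col x y) : ℝ) = (C.num q : ℝ) * C.yy v p q := by
  have h1 : ∀ x y, C.XX v x y * (C.p p q (C.col x y) : ℝ) =
      ∑ z, if C.col z y = q then (if C.col x z = p then C.XX v x y else 0) else 0 := by
    intro x y
    rw [← C.p_spec, card_filter]
    push_cast
    rw [mul_sum]
    apply sum_congr rfl
    intro z _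
    by_cases h1 : C.col x z = p <;> by_cases h2 : C.col z y = q <;> simp [h1, h2]
  simp_rw [h1]
  have h2 : ∑ x, ∑ y, ∑ z, (if C.col z y = q then (if C.col x z = p then C.XX v x y else 0) else 0)
      = ∑ z, ∑ y, if C.col z y = q then C.Y v p z y else 0 := by
    calc ∑ x, ∑ y, ∑ z, (if C.col z y = q then (if C.col x z = p then C.XX v x y else 0) else 0)
        = ∑ x, ∑ z, ∑ y, (if C.col z y = q then (if C.col x z = p then C.XX v x y else 0) else 0) := by
          apply sum_congr rfl; intro x _; rw [sum_comm]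
      _ = ∑ z, ∑ x, ∑ y, (if C.col z y = q then (if C.col x z = p then C.XX v x y else 0) else 0) := by
          rw [sum_comm]
      _ = ∑ z, ∑ y, if C.col z y = q then C.Y v p z y else 0 := by
          apply sum_congr rfl; intro z _
          rw [sum_comm]
          apply sum_congr rfl; intro y _
          by_cases h : C.col z y = q
          · simp only [h, if_true]; rfl
          · simp [h]
  rw [h2]
  have h3 : ∀ z y, (if C.col z y = q then C.Y v p z y else 0) =
      (fun c => if c = q then C.yy v p q else 0) (C.col z y) := by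
    intro z y
    by_cases h : C.col z y = q
    · simp only [h, if_true]; rw [C.Y_eq, h]
    · simp [h]
  simp_rw [h3]
  rw [C.sum_col (fun c => if c = q then C.yy v p q else 0)]
  simp

/-- `G(p,q) = ∑_a v_a ∇̃^a_{pq}` -/
noncomputable def G (v : S → ℝ) (p q : S) : ℝ := ∑ a, v a * C.nabla a p q

theorem G_eq (v : S → ℝ) (p q : S) :
    Real.sqrt ((C.num p : ℝ) * C.valency q) * C.G v p q = (C.num q : ℝ) * C.yy v p q := by
  rw [← C.sum_Y]
  have h1 : ∀ x y, C.XX v x y * (C.p p q (C.col x y) : ℝ) =
      (fun a => v a / Real.sqrt (C.num a) * (C.p p q a : ℝ)) (C.col x y) := by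
    intro x y; rfl
  simp_rw [h1]
  rw [C.sum_col (fun a => v a / Real.sqrt (C.num a) * (C.p p q a : ℝ))]
  unfold G
  rw [mul_sum]
  apply sum_congr rfl
  intro a _
  have hna : (0 : ℝ) < C.num a := by exact_mod_cast C.num_pos a
  by_cases h0 : C.p p q a = 0
  · simp [nabla, h0]
  · obtain ⟨x, y, hxy⟩ := C.surj a
    have h2 : 0 < C.p p q (C.col x y) := by rw [hxy]; omega
    rw [← C.p_spec, card_pos] at h2
    obtain ⟨z, hz⟩ := h2
    rw [mem_filter] at hz
    obtain ⟨x0, y0, hp⟩ := C.surj p
    have hsrc : C.col x0 x0 = C.col x x := C.col_src (hp.trans hz.2.1.symm)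
    have e1 : (C.num a : ℝ) = (C.m (C.col x x) : ℝ) * C.valency a := by
      rw [← hxy]; exact_mod_cast C.num_eq x y
    have e2 : (C.num p : ℝ) = (C.m (C.col x x) : ℝ) * C.valency p := by
      rw [← hp, ← hsrc]; exact_mod_cast C.num_eq x0 y0
    have hka : (0 : ℝ) < C.valency a := by exact_mod_cast C.valency_pos a
    have hkp : (0 : ℝ) < C.valency p := by exact_mod_cast C.valency_pos p
    have hkq : (0 : ℝ) < C.valency q := by exact_mod_cast C.valency_pos q
    have hm : (0 : ℝ) < C.m (C.col x x) := by exact_mod_cast C.m_pos x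
    have e3 : Real.sqrt ((C.num p : ℝ) * C.valency q) *
        Real.sqrt ((C.valency a : ℝ) / ((C.valency p : ℝ) * (C.valency q : ℝ))) =
        Real.sqrt (C.num a) := by
      rw [← Real.sqrt_mul (by positivity)]
      congr 1
      rw [e1, e2]
      field_simp
    have e4 : (C.num a : ℝ) * (v a / Real.sqrt (C.num a)) = v a * Real.sqrt (C.num a) := by
      have hs : 0 < Real.sqrt (C.num a) := Real.sqrt_pos.2 hna
      field_simp
      rw [Real.sq_sqrt hna.le]
      ring
    unfold nabla
    calc Real.sqrt ((C.num p : ℝ) * C.valency q) * (v a *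
          (Real.sqrt ((C.valency a : ℝ) / ((C.valency p : ℝ) * (C.valency q : ℝ))) * (C.p p q a : ℝ)))
        = v a * (Real.sqrt ((C.num p : ℝ) * C.valency q) *
        Real.sqrt ((C.valency a : ℝ) / ((C.valency p : ℝ) * (C.valency q : ℝ)))) * (C.p p q a : ℝ) := by
          ring
      _ = ((C.num a : ℝ) * (v a / Real.sqrt (C.num a))) * (C.p p q a : ℝ) := by rw [e3, e4]
      _ = _ := by ring

theorem G_sq (v : S → ℝ) (p q : S) :
    C.G v p q ^ 2 = (C.num q : ℝ) * (C.yy v p q ^ 2 / C.valency (C.tr p)) := by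
  have hG := C.G_eq v p q
  have hnp : (0 : ℝ) < C.num p := by exact_mod_cast C.num_pos p
  have hnq : (0 : ℝ) < C.num q := by exact_mod_cast C.num_pos q
  have hkq : (0 : ℝ) < C.valency q := by exact_mod_cast C.valency_pos q
  have hkt : (0 : ℝ) < C.valency (C.tr p) := by exact_mod_cast C.valency_pos _
  have hs : 0 < Real.sqrt ((C.num p : ℝ) * C.valency q) := Real.sqrt_pos.2 (by positivity)
  by_cases h0 : C.yy v p q = 0
  · rw [h0, mul_zero] at hG
    have : C.G v p q = 0 := by
      rcases mul_eq_zero.1 hG with h | h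
      · exact absurd h hs.ne'
      · exact h
    rw [this, h0]
    simp
  · -- there is a triangle
    have : ∃ a, C.p (C.tr p) a q ≠ 0 := by
      by_contra hcon
      push Not at hcon
      apply h0
      unfold yy
      apply sum_eq_zero
      intro a _
      rw [hcon a]
      simp
    obtain ⟨a, ha⟩ := this
    obtain ⟨z, y, hzy⟩ := C.surj q
    have h2 : 0 < C.p (C.tr p) a (C.col z y) := by rw [hzy]; omega
    rw [← C.p_spec, card_pos] at h2
    obtain ⟨x, hx⟩ := h2
    rw [mem_filter] at hx
    have e1 : (C.num q : ℝ) = (C.m (C.col z z) : ℝ) * C.valency q := by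
      rw [← hzy]; exact_mod_cast C.num_eq z y
    have e2 : (C.num p : ℝ) = (C.m (C.col z z) : ℝ) * C.valency (C.tr p) := by
      rw [← C.num_tr, ← hx.2.1]
      exact_mod_cast C.num_eq z x
    have hm : (0 : ℝ) < C.m (C.col z z) := by exact_mod_cast C.m_pos z
    have h3 : ((C.num p : ℝ) * C.valency q) * C.G v p q ^ 2 = ((C.num q : ℝ) * C.yy v p q) ^ 2 := by
      rw [← hG, mul_pow, Real.sq_sqrt (by positivity)]
    rw [e2] at h3
    have h4 : (C.m (C.col z z) : ℝ) * C.valency q * (C.valency (C.tr p) * C.G v p q ^ 2) =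
        (C.m (C.col z z) : ℝ) * C.valency q * ((C.num q : ℝ) * C.yy v p q ^ 2) := by
      have : ((C.num q : ℝ) * C.yy v p q) ^ 2 =
          ((C.m (C.col z z) : ℝ) * C.valency q) * ((C.num q : ℝ) * C.yy v p q ^ 2) := by
        rw [← e1]; ring
      rw [← this, ← h3]
      ring
    have h5 := mul_left_cancel₀ (by positivity) h4
    field_simp
    linarith

theorem sum_G (v : S → ℝ) :
    ∑ p, ∑ q, C.G v p q ^ 2 = ∑ z, ∑ y, ∑ p, C.Y v p z y ^ 2 / C.valency (C.tr p) := by
  have h1 : ∀ p, ∑ q, C.G v p q ^ 2 = ∑ z, ∑ y, C.Y v p z y ^ 2 / C.valency (C.tr p) := by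
    intro p
    simp_rw [C.G_sq, C.Y_eq]
    rw [C.sum_col (fun q => C.yy v p q ^ 2 / C.valency (C.tr p))]
  simp_rw [h1]
  rw [sum_comm]
  apply sum_congr rfl
  intro z _
  rw [sum_comm]

theorem col_count {x z : X} :
    ((univ.filter (fun w => C.col w z = C.col x z)).card : ℕ) = C.valency (C.tr (C.col x z)) := by
  rw [← C.col_tr, ← C.valency_eq]
  congr 1
  ext w
  simp only [mem_filter, mem_univ, true_and]
  rw [C.col_eq_iff w z, ← C.col_tr]

theorem local_bound (v : S → ℝ) (z y : X) (hn : 2 ≤ Fintype.card X) :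
    C.XX v z y ^ 2 + ((∑ x, C.XX v x y) - C.XX v z y) ^ 2 / ((Fintype.card X : ℝ) - 1) ≤
      ∑ p, C.Y v p z y ^ 2 / C.valency (C.tr p) := by
  classical
  set s : Finset S := (univ.erase z).image (fun x => C.col x z) with hs
  have hzs : C.col z z ∉ s := by
    intro h
    obtain ⟨x, hx, hx'⟩ := mem_image.1 h
    exact (mem_erase.1 hx).1 (C.diag z x z hx'.symm)
  have hYz : C.Y v (C.col z z) z y = C.XX v z y := by
    unfold Y
    rw [Finset.sum_eq_single z]
    · simp
    · intro x _ hx
      rw [if_neg]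
      intro h
      exact hx (C.diag z x z h.symm)
    · intro h; exact absurd (mem_univ z) h
  have hkz : (C.valency (C.tr (C.col z z)) : ℝ) = 1 := by
    rw [← C.col_count]
    have : univ.filter (fun w => C.col w z = C.col z z) = {z} := by
      ext w
      simp only [mem_filter, mem_univ, true_and, mem_singleton]
      constructor
      · intro h; exact C.diag z w z h.symm
      · rintro rfl; rfl
    rw [this]; simp
  have hsub : ∑ p ∈ insert (C.col z z) s, C.Y v p z y ^ 2 / (C.valency (C.tr p) : ℝ) ≤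
      ∑ p, C.Y v p z y ^ 2 / (C.valency (C.tr p) : ℝ) := by
    apply sum_le_sum_of_subset_of_nonneg (subset_univ _)
    intro p _ _
    positivity
  refine le_trans ?_ hsub
  rw [sum_insert hzs, hYz, hkz, div_one]
  apply add_le_add le_rfl
  have hpos : ∀ p ∈ s, (0 : ℝ) < C.valency (C.tr p) := by
    intro p _
    exact_mod_cast C.valency_pos _
  have hCS := Finset.sq_sum_div_le_sum_sq_div s (fun p => C.Y v p z y) hpos
  refine le_trans (le_of_eq ?_) hCS
  have hmaps : ∀ x ∈ univ.erase z, C.col x z ∈ s := fun x hx => mem_image_of_mem _ hx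
  have hfib : ∀ p ∈ s, (univ.erase z).filter (fun x => C.col x z = p) =
      univ.filter (fun x => C.col x z = p) := by
    intro p hp
    ext x
    simp only [mem_filter, mem_erase, mem_univ, and_true, true_and]
    constructor
    · exact fun h => h.2
    · intro h
      refine ⟨?_, h⟩
      rintro rfl
      rw [← h] at hp
      exact hzs hp
  congr 1
  · congr 1
    have e1 : (∑ x, C.XX v x y) - C.XX v z y = ∑ x ∈ univ.erase z, C.XX v x y := by
      rw [← Finset.add_sum_erase _ _ (mem_univ z)]; ring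
    rw [e1, ← Finset.sum_fiberwise_of_maps_to hmaps]
    apply sum_congr rfl
    intro p hp
    rw [hfib p hp, sum_filter]
    rfl
  · have e2 : ((Fintype.card X : ℝ) - 1) = (((univ.erase z).card : ℕ) : ℝ) := by
      rw [card_erase_of_mem (mem_univ z), card_univ, Nat.cast_sub (by omega)]
      simp
    rw [e2, Finset.card_eq_sum_card_fiberwise hmaps]
    push_cast
    apply sum_congr rfl
    intro p hp
    obtain ⟨x, _, rfl⟩ := mem_image.1 hp
    rw [hfib _ hp, C.col_count]

theorem sum_XX (v : S → ℝ) : ∑ x, ∑ y, C.XX v x y ^ 2 = ∑ a, v a ^ 2 := by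
  have h1 : ∀ x y, C.XX v x y ^ 2 = (fun a => (v a / Real.sqrt (C.num a)) ^ 2) (C.col x y) := by
    intro x y; rfl
  simp_rw [h1]
  rw [C.sum_col (fun a => (v a / Real.sqrt (C.num a)) ^ 2)]
  apply sum_congr rfl
  intro a _
  have hna : (0 : ℝ) < C.num a := by exact_mod_cast C.num_pos a
  rw [div_pow, Real.sq_sqrt hna.le]
  field_simp

theorem main_bound (v : S → ℝ) (hn : 2 ≤ Fintype.card X) :
    (Fintype.card X : ℝ) / ((Fintype.card X : ℝ) - 1) * ∑ a, v a ^ 2 ≤
      ∑ p, ∑ q, C.G v p q ^ 2 := by
  rw [C.sum_G, ← C.sum_XX]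
  have hn' : (2 : ℝ) ≤ Fintype.card X := by exact_mod_cast hn
  have hpos : (0 : ℝ) < (Fintype.card X : ℝ) - 1 := by linarith
  have h1 : ∑ z, ∑ y, (C.XX v z y ^ 2 +
      ((∑ x, C.XX v x y) - C.XX v z y) ^ 2 / ((Fintype.card X : ℝ) - 1)) ≤
      ∑ z, ∑ y, ∑ p, C.Y v p z y ^ 2 / (C.valency (C.tr p) : ℝ) :=
    sum_le_sum (fun z _ => sum_le_sum (fun y _ => C.local_bound v z y hn))
  refine le_trans ?_ h1
  rw [sum_comm, sum_comm (s := univ (α := X)) (f := fun z y => (C.XX v z y ^ 2 + _)), mul_sum]
  apply sum_le_sum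
  intro y _
  set n : ℝ := (Fintype.card X : ℝ) with hnn
  set w : X → ℝ := fun x => C.XX v x y with hw
  set s : ℝ := ∑ x, w x with hs
  have h2 : ∑ z, (w z ^ 2 + (s - w z) ^ 2 / (n - 1)) =
      ∑ z, w z ^ 2 + (n * s ^ 2 - 2 * s * s + ∑ z, w z ^ 2) / (n - 1) := by
    rw [sum_add_distrib, ← sum_div]
    congr 2
    have : ∀ z, (s - w z) ^ 2 = s ^ 2 - 2 * s * w z + w z ^ 2 := by intro z; ring
    simp_rw [this]
    rw [sum_add_distrib, sum_sub_distrib, ← mul_sum, sum_const, card_univ, nsmul_eq_mul]
  show n / (n - 1) * ∑ x, w x ^ 2 ≤ ∑ z, (w z ^ 2 + (s - w z) ^ 2 / (n - 1))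
  rw [h2]
  have h3 : 0 ≤ (n - 2) * s ^ 2 := mul_nonneg (by linarith) (sq_nonneg s)
  have h4 : n / (n - 1) * ∑ x, w x ^ 2 = ∑ x, w x ^ 2 + (∑ x, w x ^ 2) / (n - 1) := by
    field_simp
    ring
  rw [h4]
  apply add_le_add le_rfl
  apply div_le_div_of_nonneg_right _ hpos.le
  nlinarith

/-- **Main theorem.** Every eigenvalue of the matrix `O` of a coherent configuration on `n ≥ 2`
points is at least `n/(n-1)`. -/
theorem eigenvalue_bound (hn : 2 ≤ Fintype.card X) (lam : ℝ)
    (h : Module.End.HasEigenvalue (Matrix.toLin' C.O) lam) :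
    (Fintype.card X : ℝ) / ((Fintype.card X : ℝ) - 1) ≤ lam := by
  obtain ⟨v, hv⟩ := h.exists_hasEigenvector
  have hv1 : C.O.mulVec v = lam • v := by
    have := hv.apply_eq_smul
    rwa [Matrix.toLin'_apply] at this
  have hv0 : v ≠ 0 := hv.2
  have hsum : 0 < ∑ a, v a ^ 2 := by
    obtain ⟨a, ha⟩ := Function.ne_iff.1 hv0
    apply Finset.sum_pos' (fun i _ => sq_nonneg _)
    exact ⟨a, mem_univ a, by have : v a ≠ 0 := ha; positivity⟩
  have hquad : lam * ∑ a, v a ^ 2 = ∑ p, ∑ q, C.G v p q ^ 2 := by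
    have e1 : lam * ∑ a, v a ^ 2 = ∑ a, v a * (C.O.mulVec v) a := by
      rw [hv1, mul_sum]
      apply sum_congr rfl
      intro a _
      simp only [Pi.smul_apply, smul_eq_mul]
      ring
    rw [e1]
    simp only [Matrix.mulVec, dotProduct, O, G]
    have e2 : ∀ p q, (∑ a, v a * C.nabla a p q) ^ 2 =
        ∑ a, ∑ b, v a * (C.nabla a p q * C.nabla b p q * v b) := by
      intro p q
      rw [sq, sum_mul_sum]
      apply sum_congr rfl; intro a _
      apply sum_congr rfl; intro b _
      ring
    simp_rw [e2]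
    calc ∑ a, v a * ∑ b, (∑ p, ∑ q, C.nabla a p q * C.nabla b p q) * v b
        = ∑ a, ∑ b, ∑ p, ∑ q, v a * (C.nabla a p q * C.nabla b p q * v b) := by
          apply sum_congr rfl; intro a _
          rw [mul_sum]
          apply sum_congr rfl; intro b _
          rw [sum_mul, mul_sum]
          apply sum_congr rfl; intro p _
          rw [sum_mul, mul_sum]
      _ = ∑ a, ∑ p, ∑ b, ∑ q, v a * (C.nabla a p q * C.nabla b p q * v b) := by
          apply sum_congr rfl; intro a _; rw [sum_comm]
      _ = ∑ p, ∑ a, ∑ b, ∑ q, v a * (C.nabla a p q * C.nabla b p q * v b) := by rw [sum_comm]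
      _ = ∑ p, ∑ a, ∑ q, ∑ b, v a * (C.nabla a p q * C.nabla b p q * v b) := by
          apply sum_congr rfl; intro p _
          apply sum_congr rfl; intro a _; rw [sum_comm]
      _ = ∑ p, ∑ q, ∑ a, ∑ b, v a * (C.nabla a p q * C.nabla b p q * v b) := by
          apply sum_congr rfl; intro p _; rw [sum_comm]
  have := C.main_bound v hn
  rw [← hquad] at this
  exact le_of_mul_le_mul_right this hsum

end CC

theorem result {X S : Type*} [Fintype X] [DecidableEq X] [Fintype S] [DecidableEq S]
    (C : CC X S) (hn : 2 ≤ Fintype.card X) (lam : ℝ)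
    (h : Module.End.HasEigenvalue (Matrix.toLin' C.O) lam) :
    (Fintype.card X : ℝ) / ((Fintype.card X : ℝ) - 1) ≤ lam :=
  C.eigenvalue_bound hn lam h

end Pool.Agent.Results.MP_d5c33c_co.SpectrumBound
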